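import Pool.Agent.H522R2.LS.Edges

/-!
Arithmetic circuits for the permanent which are symmetric under the 3-cycles inside `r` disjoint blocks of four
indices, acting simultaneously on rows and columns, have at least `2^(r/3360)` gates.
-/

namespace Pool.Agent.Results.MP_8b1d3b_lc.LocalSymmetry

open H522R2.LS

/-- large fibres contain many disjoint blocks of four points -/
lemma exists_blocks {Ω ι : Type} [Fintype Ω] [DecidableEq Ω] [Fintype ι] [DecidableEq ι] (f : Ω → ι)
    (hf : ∀ x, 4 ≤ (Finset.univ.filter (fun y => f y = f x)).card) :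
    ∃ r, Fintype.card Ω ≤ 7 * r ∧ ∃ β : Fin r × Fin 4 ↪ Ω, ∀ v a a', f (β (v, a)) = f (β (v, a')) := by
  classical
  let m : ι → ℕ := fun c => Fintype.card {x // f x = c}
  let T : Type := Σ c : ι, Fin (m c / 4)
  let e : (Σ c : ι, {x // f x = c}) ≃ Ω := Equiv.sigmaFiberEquiv f
  let e2 : ∀ c, {x // f x = c} ≃ Fin (m c) := fun c => Fintype.equivFin _
  let r := Fintype.card T
  let E : T ≃ Fin r := Fintype.equivFin T
  have hm : ∀ c, m c = 0 ∨ 4 ≤ m c := by
    intro c
    by_cases h : ∃ x, f x = c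
    · obtain ⟨x, rfl⟩ := h
      right
      have h1 := hf x
      rw [← Fintype.card_subtype] at h1
      exact h1
    · left
      show Fintype.card {x // f x = c} = 0
      rw [Fintype.card_eq_zero_iff]
      exact ⟨fun x => h ⟨x.1, x.2⟩⟩
  have hlt : ∀ c (u : Fin (m c / 4)) (a : Fin 4), 4 * u.1 + a.1 < m c := by
    intro c u a
    have h1 := u.2
    have h2 := a.2
    omega
  let g : T × Fin 4 → Ω := fun w =>
    e ⟨w.1.1, (e2 w.1.1).symm ⟨4 * w.1.2.1 + w.2.1, hlt _ w.1.2 w.2⟩⟩
  have hg : Function.Injective g := by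
    rintro ⟨⟨c, u⟩, a⟩ ⟨⟨c', u'⟩, a'⟩ h
    have h1 := e.injective h
    rw [Sigma.mk.injEq] at h1
    obtain ⟨h0, h2⟩ := h1
    have h0' : c = c' := h0
    subst h0'
    have h3 := (e2 c).symm.injective (eq_of_heq h2)
    rw [Fin.mk.injEq] at h3
    have h3' : 4 * u.1 + a.1 = 4 * u'.1 + a'.1 := h3
    have h4 := a.2
    have h5 := a'.2
    have h6 : u = u' := Fin.ext (by omega)
    have h7 : a = a' := Fin.ext (by omega)
    rw [h6, h7]
  refine ⟨r, ?_, (Equiv.prodCongr E.symm (Equiv.refl _)).toEmbedding.trans ⟨g, hg⟩, ?_⟩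
  · have h1 : Fintype.card Ω = ∑ c, m c := by
      rw [← Fintype.card_congr e, Fintype.card_sigma]
    have h2 : r = ∑ c, m c / 4 := by
      show Fintype.card T = _
      rw [Fintype.card_sigma]
      exact Finset.sum_congr rfl (fun c _ => Fintype.card_fin _)
    rw [h1, h2, Finset.mul_sum]
    refine Finset.sum_le_sum (fun c _ => ?_)
    rcases hm c with h | h
    · omega
    · omega
  · intro v a a'
    have hfib : ∀ a, f (g (E.symm v, a)) = (E.symm v).1 := by
      intro a
      exact ((e2 (E.symm v).1).symm ⟨4 * (E.symm v).2.1 + a.1, hlt _ (E.symm v).2 a⟩).2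
    show f (g (E.symm v, a)) = f (g (E.symm v, a'))
    rw [hfib, hfib]

theorem result (K : Type) [Field K] [CharZero K] (Ω : Type) [Fintype Ω] [DecidableEq Ω] :
    -- lower bound for `r` disjoint blocks of four indices
    (∀ (r : ℕ) (β : Fin r × Fin 4 ↪ Ω) (C : Circuit K (Ω × Ω)), C.val C.out = perPoly K Ω →
      (∀ (v : Fin r) (x y z : Fin 4), x ≠ y → y ≠ z → x ≠ z →
        C.SymmUnder (diag (cyc (β (v, x)) (β (v, y)) (β (v, z))))) →
      2 ^ (r / 3360) ≤ Fintype.card C.G ∧ 2 ^ (r / 3360) ≤ 2 * C.edges + 1) ∧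
    -- lower bound for partitions into parts with at least four elements
    (∀ (ι : Type) [Fintype ι] [DecidableEq ι] (f : Ω → ι),
      (∀ x, 4 ≤ (Finset.univ.filter (fun y => f y = f x)).card) →
      ∀ C : Circuit K (Ω × Ω), C.val C.out = perPoly K Ω →
      (∀ x y z : Ω, f x = f y → f y = f z → x ≠ y → y ≠ z → x ≠ z →
        C.SymmUnder (diag (cyc x y z))) →
      2 ^ (Fintype.card Ω / 23520) ≤ Fintype.card C.G ∧
        2 ^ (Fintype.card Ω / 23520) ≤ 2 * C.edges + 1) ∧
    -- symmetrisation: the converse, with a factor `24^r`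
    (∀ (r : ℕ) (β : Fin r × Fin 4 ↪ Ω) (C : Circuit K (Ω × Ω)), C.val C.out = perPoly K Ω →
      ∃ C' : Circuit K (Ω × Ω), C'.val C'.out = perPoly K Ω ∧
        (∀ g : Equiv.Perm Ω, Preserves β g → C'.SymmUnder (diag g)) ∧
        Fintype.card C'.G = 24 ^ r * Fintype.card C.G + 3 ∧
        C'.edges = 24 ^ r * (C.edges + 1) + 2) := by
  have hA : ∀ (r : ℕ) (β : Fin r × Fin 4 ↪ Ω) (C : Circuit K (Ω × Ω)), C.val C.out = perPoly K Ω →
      (∀ (v : Fin r) (x y z : Fin 4), x ≠ y → y ≠ z → x ≠ z →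
        C.SymmUnder (diag (cyc (β (v, x)) (β (v, y)) (β (v, z))))) →
      2 ^ (r / 3360) ≤ Fintype.card C.G ∧ 2 ^ (r / 3360) ≤ 2 * C.edges + 1 := by
    intro r β C hval hsym
    refine ⟨lower_gates β C hval hsym, ?_⟩
    refine le_trans (lower_gates β (live C) ?_ ?_) (live_card C)
    · rw [live_val C _ (live C).out rfl]
      exact hval
    · intro v x y z h1 h2 h3
      exact live_symm C _ (hsym v x y z h1 h2 h3)
  refine ⟨hA, ?_, ?_⟩
  · intro ι _ _ f hf C hval hsym
    obtain ⟨r, hr, β, hβ⟩ := exists_blocks f hf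
    have h := hA r β C hval (by
      intro v x y z h1 h2 h3
      refine hsym _ _ _ (hβ v x y) (hβ v y z) ?_ ?_ ?_
      · intro h; exact h1 (Prod.mk.inj (β.injective h)).2
      · intro h; exact h2 (Prod.mk.inj (β.injective h)).2
      · intro h; exact h3 (Prod.mk.inj (β.injective h)).2)
    have hle : 2 ^ (Fintype.card Ω / 23520) ≤ 2 ^ (r / 3360) :=
      Nat.pow_le_pow_right (by norm_num) (by omega)
    exact ⟨le_trans hle h.1, le_trans hle h.2⟩
  · intro r β C hval
    refine ⟨symC β C, symC_out β C hval, ?_, symC_card β C, symC_edges β C⟩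
    intro g hg
    obtain ⟨g0, rfl⟩ := exists_bp β g hg
    exact symC_symm β C g0

end Pool.Agent.Results.MP_8b1d3b_lc.LocalSymmetry
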