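import Pool.Agent.H564R3.TS.Main
import Pool.Agent.H564R3.TS.Real
import Pool.Agent.H564R3.TS.Num
import Pool.Agent.H564R3.TS.Perm

/-!
The permanent by monotone arithmetic programs with little space.
-/

set_option autoImplicit false

namespace Pool.Agent.Results.MP_8b1d3b_lc.MonotoneTimeSpace

open Finset
open Pool.Agent.H564R3.PW (Instr exec syms)
open Pool.Agent.H564R3.TS
open scoped NNReal

/-- **Time-space trade-off for the permanent.** A straight-line program over the nonnegative real
numbers which computes the `n × n` permanent. -/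
theorem result (n : ℕ) (ρ : Type) [Fintype ρ] [DecidableEq ρ]
    (p : List (Instr ℝ≥0 (Fin n × Fin n) ρ)) (o : ρ)
    (h : ∀ x : Fin n × Fin n → ℝ≥0, exec x p o = (Matrix.of fun i j => x (i, j)).permanent) :
    (4 : ℝ) ^ n ≤ p.length *
      (2 : ℝ) ^ (5 * Real.sqrt (n * Real.logb 2 (2 * (n + 1) ^ 2 * Fintype.card ρ)) + 7) := by
  classical
  set F : Finset (Finset (Fin n × Fin n)) := univ.image (pgraph (n := n)) with hF
  have hFe : ∀ A ∈ F, Exact psup 2 univ A := by
    intro A hA
    rw [hF, mem_image] at hA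
    obtain ⟨σ, _, rfl⟩ := hA
    exact perm_exact σ
  obtain ⟨g1, g2⟩ := good_nn F n (by
      intro A hA
      have h1 := hFe A hA
      have h2 : (univ : Finset (Fin n ⊕ Fin n)).card = 2 * A.card := C_card h1
      rw [card_univ, Fintype.card_sum, Fintype.card_fin] at h2
      omega) p o
    (by
      intro w
      rw [h w, perm_sum])
  have hT : Cov psup (syms p o) := by
    intro u hu e
    obtain ⟨A, hA, hAu⟩ := g2 u hu
    obtain ⟨x, hx, hex⟩ := (hFe A hA).cover e (mem_univ e)
    exact ⟨x, hAu x hx, hex⟩
  have hlen : 1 ≤ p.length := by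
    rcases p with _ | ⟨a, l⟩
    · have h1 : pgraph (1 : Equiv.Perm (Fin n)) ∈ F := mem_image_of_mem _ (mem_univ _)
      exact absurd (g1 _ h1) (Set.notMem_empty _)
    · simp
  have h4 := num_perm n 1 (Fintype.card ρ) p.length (Fintype.card_pos_iff.2 ⟨o⟩) hlen (by
      intro w H hw hH
      have h5 := main psup 2 (by norm_num) F hFe p o hT g1 Nat.factorial
        (fun P s G hP hG => perm_count P s G hP hG) 4 (n + 1) (by norm_num) (by omega) n
        (by simp [Fintype.card_sum]; ring) (fun x s hx hs => fact_ineq n x s hx hs)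
        w H hw hH
      have h6 : n.factorial * 4 ^ n ≤ n.factorial * (1 * (2 ^ H * 4 ^ (3 * w) *
          ((H + 1) * (n + 1) * Fintype.card ρ) ^ (n / w))) := by
        calc n.factorial * 4 ^ n = F.card * 4 ^ n := by rw [hF, perm_card]
          _ ≤ _ := h5
          _ = _ := by ring
      exact Nat.le_of_mul_le_mul_left h6 (Nat.factorial_pos n))
  rw [Nat.cast_one, one_mul] at h4
  exact h4

end Pool.Agent.Results.MP_8b1d3b_lc.MonotoneTimeSpace
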