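import Pool.Agent.H546R2.SM.B9

set_option autoImplicit false

open MvPolynomial Finset

namespace Pool.Agent.Results.MP_8b1d3b_lc.NLogNLowerBound

/-- **An `n² log n` lower bound for the permanent in the general circuit model.**
Let `K` be any field of characteristic zero and `n` any natural number.  Every straight-line
program `g 0, …, g m` over `K` whose last line is the generic `n × n` permanent contains at least
`n ^ 2 * (⌊log₂ n⌋ - 11) / 112` product lines.  Here every line outside the set `P` of product
lines may be an arbitrary `K`-linear combination of `1`, the variables and all earlier lines (so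
additions and scalar multiplications are free), and a product line is the product of two earlier
lines. -/
theorem result (K : Type*) [Field K] [CharZero K] (n m : ℕ)
    (g : Fin (m + 1) → MvPolynomial (Fin n × Fin n) K) (P : Finset (Fin (m + 1)))
    (hlin : ∀ i, i ∉ P → g i ∈ Submodule.span K
      ({1} ∪ Set.range (MvPolynomial.X : Fin n × Fin n → MvPolynomial (Fin n × Fin n) K) ∪
        g '' {j | j < i}))
    (hprod : ∀ i, i ∈ P → ∃ a b : Fin (m + 1), a < i ∧ b < i ∧ g i = g a * g b)
    (hlast : g (Fin.last m) = Matrix.permanent (Matrix.of fun i j : Fin n =>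
      (MvPolynomial.X (i, j) : MvPolynomial (Fin n × Fin n) K))) :
    n ^ 2 * (Nat.log 2 n - 11) ≤ 112 * P.card := by
  classical
  set g' : ℕ → MvPolynomial (Fin n × Fin n) K :=
    fun i => if h : i < m + 1 then g ⟨i, h⟩ else 0 with hg'
  have hg'v : ∀ (i : ℕ) (h : i < m + 1), g' i = g ⟨i, h⟩ := by
    intro i h
    rw [hg']
    simp only [h, dif_pos]
  have hP : ∀ (i : ℕ) (h : i < m + 1), i ∈ P.map Fin.valEmbedding ↔ (⟨i, h⟩ : Fin (m + 1)) ∈ P := by
    intro i h
    rw [Finset.mem_map]
    constructor
    · rintro ⟨j, hj, hji⟩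
      have : j = ⟨i, h⟩ := Fin.ext hji
      rwa [← this]
    · intro hi
      exact ⟨⟨i, h⟩, hi, rfl⟩
  have hcard : (P.map Fin.valEmbedding).card = P.card := Finset.card_map _
  rw [← hcard]
  apply Pool.Agent.H546R2.SM.nlogn K n (m + 1) (P.map Fin.valEmbedding) g'
  · intro i hi
    by_cases hiP : (⟨i, hi⟩ : Fin (m + 1)) ∈ P
    · right
      refine ⟨(hP i hi).mpr hiP, ?_⟩
      obtain ⟨a, b, ha, hb, hab⟩ := hprod _ hiP
      refine ⟨a, ha, b, hb, ?_⟩
      rw [hg'v i hi, hg'v a a.2, hg'v b b.2]
      exact hab
    · left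
      refine ⟨fun h => hiP ((hP i hi).mp h), ?_⟩
      have h1 := hlin _ hiP
      rw [hg'v i hi]
      refine Submodule.span_mono ?_ h1
      rintro p (hp | ⟨j, hj, rfl⟩)
      · exact Or.inl hp
      · right
        refine ⟨j, hj, ?_⟩
        rw [hg'v j j.2]
  · refine ⟨m, Nat.lt_succ_self m, ?_⟩
    rw [hg'v m (Nat.lt_succ_self m)]
    exact hlast.symm

end Pool.Agent.Results.MP_8b1d3b_lc.NLogNLowerBound
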