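import Pool.Agent.H30R2.PS.Final
import Pool.Agent.H30R2.PS.Conv

set_option autoImplicit false

/-! # Circuits for the permanent symmetric under a small abelian group

A circuit with values in `K` reads the entries of an `n × n` matrix; its other gates compute
arbitrary functions of the multiset of their inputs (in particular sums, products and constants are
allowed, with unbounded fan-in). It is symmetric under a permutation of the rows and one of the
columns if the induced permutation of the entries extends to an automorphism of the circuit.

Lower bound: let `K` be a commutative ring in which no power of two vanishes, and let a circuit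
compute the permanent of `n × n` matrices over `K`. Given `2 w` disjoint quadruples of rows and
`3 w` disjoint pairs of columns (`8 w ≤ n`), if the circuit is symmetric under Klein's four-group
acting on each quadruple and the swap of each pair (an abelian group of order `2 ^ (7 w)`), then it
has at least `2 ^ (w / 3200)` gates.

Converse: over a field of characteristic zero, an arithmetic circuit for the permanent with `s`
gates can be made symmetric under any group `D` of row and column permutations, with
`|D| s + 3` gates. -/

namespace Pool.Agent.Results.MP_8b1d3b_lc.SmallGroupSymmetry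

open Pool.Agent.H30R2.PS

theorem result :
    (∀ (K : Type) [CommRing K], (∀ k : ℕ, (2 : K) ^ k ≠ 0) →
      ∀ (n w : ℕ), 8 * w ≤ n →
      ∀ (ρ : Fin (2 * w) × Four ↪ Fin n) (κ : Fin (3 * w) × ZMod 2 ↪ Fin n)
        (Gt : Type) [Fintype Gt] (N : Net (Fin n × Fin n) K Gt),
        (∀ x : Fin n × Fin n → K,
          N.eval x = Matrix.permanent (Matrix.of fun i j => x (i, j))) →
        (∀ (U : Fin (2 * w) → Four) (a : Fin (3 * w) → ZMod 2), ∃ φ, N.IsAut
          (((quadPerm U).viaEmbedding ρ).prodCongr ((pairPerm a).viaEmbedding κ)) φ) →
        2 ^ (w / 3200) ≤ Fintype.card Gt) ∧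
    (∀ (K : Type) [Field K] [CharZero K] (n : ℕ)
      (D : Subgroup (Equiv.Perm (Fin n) × Equiv.Perm (Fin n)))
      (Gt : Type) [Fintype Gt] (N : Net (Fin n × Fin n) K Gt), N.Arith →
      (∀ x : Fin n × Fin n → K,
        N.eval x = Matrix.permanent (Matrix.of fun i j => x (i, j))) →
      ∃ (Gt' : Type) (_ : Fintype Gt') (N' : Net (Fin n × Fin n) K Gt'), N'.Arith ∧
        (∀ x : Fin n × Fin n → K,
          N'.eval x = Matrix.permanent (Matrix.of fun i j => x (i, j))) ∧
        (∀ d ∈ D, ∃ φ, N'.IsAut (ent d) φ) ∧
        Nat.card Gt' = Nat.card D * Nat.card Gt + 3) :=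
  ⟨fun _ _ h2 n w hn ρ κ Gt _ N hcomp hsym => perm_bound h2 n w hn ρ κ Gt N hcomp hsym,
    fun _ _ _ _ D Gt _ N hN hcomp => perm_converse D Gt N hN hcomp⟩

end Pool.Agent.Results.MP_8b1d3b_lc.SmallGroupSymmetry
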